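import Mathlib
import Pool.Agent.Results.MP_15d263_co.Aligned

set_option autoImplicit false

namespace Pool.Agent.Results.MP_15d263_co.AllPairs

open Pool.Agent.Results.MP_15d263_co.Aligned

/-- The isometry of the plane exchanging the two coordinates. -/
noncomputable def swap : Plane ≃ᵢ Plane :=
  (LinearIsometryEquiv.piLpCongrLeft 2 ℝ ℝ (Equiv.swap (0 : Fin 2) 1)).toIsometryEquiv

theorem swap_zero (z : Plane) : swap z 0 = z 1 := by
  simp [swap, LinearIsometryEquiv.piLpCongrLeft_apply, Equiv.piCongrLeft']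

theorem swap_one (z : Plane) : swap z 1 = z 0 := by
  simp [swap, LinearIsometryEquiv.piLpCongrLeft_apply, Equiv.piCongrLeft']

theorem swap_swap (z : Plane) : swap (swap z) = z := by
  apply ext2
  · rw [swap_zero, swap_one]
  · rw [swap_one, swap_zero]

theorem swap_sq (u v : ℝ) : swap '' sq (pt u v) = sq (pt v u) := by
  ext z
  constructor
  · rintro ⟨w, ⟨h0, h1⟩, rfl⟩
    refine ⟨?_, ?_⟩
    · rw [swap_zero]; simpa using h1
    · rw [swap_one]; simpa using h0
  · rintro ⟨h0, h1⟩
    refine ⟨swap z, ⟨?_, ?_⟩, swap_swap z⟩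
    · rw [swap_zero]; simpa using h1
    · rw [swap_one]; simpa using h0

theorem swap_T (x y : ℤ) : swap '' T x y = T y x := by
  rw [T, T, Set.image_union, swap_sq, swap_sq]

theorem result (x y : ℤ) (hxy : 2 ≤ max |x| |y|) :
    ∃ F : Set (Set Plane), IsTiling F ∧ Monohedral F (T x y) ∧ Idiomeric F := by
  by_cases hy : y = 0
  · subst hy
    have hx : x ≠ 0 := by rintro rfl; simp at hxy
    have hxR : (x : ℝ) ≠ 0 := by exact_mod_cast hx
    obtain ⟨h1, h2, h3⟩ := construction 0 x (by rwa [max_comm] at hxy) (-1 / x) 1 odd_one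
      (by push_cast; field_simp; ring)
    refine ⟨_, h1, ?_, h3⟩
    intro t ht
    obtain ⟨g, hg⟩ := h2 t ht
    refine ⟨swap.trans g, ?_⟩
    rw [← hg, ← swap_T x 0, ← Set.image_comp]
    rfl
  · have hyR : (y : ℝ) ≠ 0 := by exact_mod_cast hy
    obtain ⟨h1, h2, h3⟩ := construction x y hxy ((x - 1) / y) 1 odd_one
      (by push_cast; field_simp; ring)
    exact ⟨_, h1, h2, h3⟩

end Pool.Agent.Results.MP_15d263_co.AllPairs
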